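import Pool.Agent.Helper30.DL.GoalsB

/-!
MP_b4564f_an: packet CUB (cancellation of the cubic terms).
-/

set_option autoImplicit false

open Complex (I)
open Finset
open Pool.Agent.Helper30.DL

namespace Pool.Agent.Helper73.DL

theorem cub (hC : CstStmt) : CubStmt := by
  intro k hk t ht P X U z hU
  obtain ⟨ht0, -, -, -, hpp, -, -, -, -, hll, hex2, hmu, -, -, hki, homl, homk, -, -, -, -, hkn, hon,
    hD, -, -⟩ := hC k hk t ht
  obtain ⟨hD1, hd1, hn1⟩ := hD 1 le_rfl (by norm_num)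
  obtain ⟨hD3, hd3, hn3⟩ := hD 3 (by norm_num) (by norm_num)
  have hth : ((th t : ℝ) : ℂ) ≠ 0 := by
    have : th t ≠ 0 := by unfold th; positivity
    exact_mod_cast this
  have e1 : dl t 1 * Dm t 1 = 1 := by
    have : (th t : ℂ) * (dl t 1 * Dm t 1) = th t * 1 := by
      calc (th t : ℂ) * (dl t 1 * Dm t 1) = (th t * dl t 1) * Dm t 1 := by ring
        _ = Dm t 1 * (1 - lam t ^ 1) := by rw [hd1]; ring
        _ = th t * 1 := by rw [hD1]; ring
    exact mul_left_cancel₀ hth this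
  have e3 : dl t 3 * Dm t 3 = 1 := by
    have : (th t : ℂ) * (dl t 3 * Dm t 3) = th t * 1 := by
      calc (th t : ℂ) * (dl t 3 * Dm t 3) = (th t * dl t 3) * Dm t 3 := by ring
        _ = Dm t 3 * (1 - lam t ^ 3) := by rw [hd3]; ring
        _ = th t * 1 := by rw [hD3]; ring
    exact mul_left_cancel₀ hth this
  have hknc : ((kn t : ℝ) : ℂ) = kap t * cj (kap t) := by
    rw [← hkn]; unfold cj; exact (Complex.mul_conj _).symm
  have hcki : cj (kap t) * cj (ik t) = 1 := by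
    have := congrArg cj hki
    simpa [cj] using this
  have hcom : cj (om t) = cj (lam t) * cj (ik t) := by
    rw [homl]; simp [cj]
  have hex4 : ex t (-4) = cj (lam t) ^ 2 := hmu
  -- first term
  have T1 : c30 P t * dl t 3 * (ik t * X) ^ 3
      = ((-(g2h t / 2) : ℝ) : ℂ) * ((om t + Aic P t) * X ^ 3) := by
    unfold c30
    have : ((-(g2h t / 2) : ℝ) : ℂ) * (Dm t 3 * (kap t * kap t) * (lam t + Aic P t * kap t))
        * dl t 3 * (ik t * X) ^ 3
        = ((-(g2h t / 2) : ℝ) : ℂ) * (dl t 3 * Dm t 3) * (kap t * ik t) ^ 2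
          * (lam t * ik t + Aic P t * (kap t * ik t)) * X ^ 3 := by ring
    rw [this, e3, hki, ← homl]; ring
  have T2 : c21 P t * dl t 1 * ((ik t * X) ^ 2 * cj (ik t * X))
      = ((-(g2h t) : ℝ) : ℂ) * (((1 / 2 : ℝ) * cj (om t) + om t
          + (1 / 2 : ℝ) * (⟨3 * P.A, -cs t⟩ : ℂ)) * (X ^ 2 * cj X)) := by
    have hc : cj (ik t * X) = cj (ik t) * cj X := by simp [cj]
    unfold c21
    rw [hc, hex2, hknc]
    have : ((-(g2h t) : ℝ) : ℂ) * (Dm t 1 * ((1 / 2 : ℝ) * (kap t * kap t * cj (lam t))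
        + kap t * cj (kap t) * (lam t + (1 / 2 : ℝ) * (kap t * ⟨3 * P.A, -cs t⟩)))) * dl t 1
        * ((ik t * X) ^ 2 * (cj (ik t) * cj X))
        = ((-(g2h t) : ℝ) : ℂ) * (dl t 1 * Dm t 1) * ((1 / 2 : ℝ) * ((kap t * ik t) ^ 2
            * (cj (lam t) * cj (ik t)))
          + (kap t * ik t) * (cj (kap t) * cj (ik t)) * (lam t * ik t
            + (1 / 2 : ℝ) * ((kap t * ik t) * ⟨3 * P.A, -cs t⟩))) * (X ^ 2 * cj X) := by ring
    rw [this, e1, hki, hcki, ← hcom, ← homl]; ring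
  have hg : g2h t = hp t * ph t := by unfold g2h hp; ring
  have hchh : (⟨1, -(2 * cs t)⟩ : ℂ) * chh t = ((1 + 4 * cs t ^ 2 : ℝ) : ℂ) * (ph t : ℂ) := by
    unfold chh
    rw [← Complex.ofReal_mul]
    apply Complex.ext
    · rw [Complex.mul_re, Complex.ofReal_re]; ring
    · rw [Complex.mul_im, Complex.ofReal_im]; ring
  have h14 : (1 + 4 * cs t ^ 2 : ℝ) ≠ 0 := by positivity
  have T3 : al P t * chh t * U ^ 2 = ((g2h t : ℝ) : ℂ) * (Aic P t * X ^ 2) := by
    unfold al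
    rw [hU, hex4]
    have : ((hp t * (1 + 4 * cs t ^ 2)⁻¹ : ℝ) : ℂ) * (Aic P t * (kap t * kap t) * cj (lam t) ^ 2
        * ⟨1, -(2 * cs t)⟩) * chh t * (om t * X) ^ 2
        = ((hp t * (1 + 4 * cs t ^ 2)⁻¹ : ℝ) : ℂ) * Aic P t * (om t * kap t) ^ 2
          * cj (lam t) ^ 2 * ((⟨1, -(2 * cs t)⟩ : ℂ) * chh t) * X ^ 2 := by ring
    rw [this, homk, hchh]
    have h2 : lam t ^ 2 * cj (lam t) ^ 2 = 1 := by rw [← mul_pow, hll]; ring
    have h3 : ((hp t * (1 + 4 * cs t ^ 2)⁻¹ : ℝ) : ℂ) * ((1 + 4 * cs t ^ 2 : ℝ) : ℂ) * (ph t : ℂ)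
        = ((g2h t : ℝ) : ℂ) := by
      rw [← Complex.ofReal_mul, ← Complex.ofReal_mul, hg]
      congr 1
      field_simp
    calc ((hp t * (1 + 4 * cs t ^ 2)⁻¹ : ℝ) : ℂ) * Aic P t * lam t ^ 2
          * cj (lam t) ^ 2 * (((1 + 4 * cs t ^ 2 : ℝ) : ℂ) * (ph t : ℂ)) * X ^ 2
        = (((hp t * (1 + 4 * cs t ^ 2)⁻¹ : ℝ) : ℂ) * ((1 + 4 * cs t ^ 2 : ℝ) : ℂ) * (ph t : ℂ))
          * (lam t ^ 2 * cj (lam t) ^ 2) * (Aic P t * X ^ 2) := by ring
      _ = _ := by rw [h2, h3]; ring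
  have T4 : be P t * ph t * Complex.normSq U = g2h t * (P.A * Complex.normSq X) := by
    have h1 : Complex.normSq (om t) * Complex.normSq (kap t) = 1 := by
      rw [← map_mul, homk]
      have := congrArg Complex.re (hll)
      simp only [cj, Complex.mul_conj, Complex.ofReal_re, Complex.one_re] at this
      exact this
    unfold be
    rw [hU, map_mul, ← hkn, hg]
    linear_combination hp t * P.A * ph t * Complex.normSq X * h1
  rw [T1, T2, T3, T4]
  simp only [om, cj, Aic, Complex.normSq_apply, Complex.add_re, Complex.add_im, Complex.mul_re,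
    Complex.mul_im, Complex.ofReal_re, Complex.ofReal_im, Complex.conj_re, Complex.conj_im, pow_succ,
    pow_zero, one_mul]
  ring

end Pool.Agent.Helper73.DL
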